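import Pool.Agent.X127.FR.Process

/-!
# A finite-dimensional stochastic module without a finite-rank Markov representation

`Y` takes two values: it is `false` up to a random time `τ` and `true` afterwards, where
`P(τ ≥ n) = 2⁻ⁿ (3 + cos n) / 4`.  The space `L = A / J` of `Y` is finite-dimensional, but `Y` is
not a function of any Markov process of finite rank.

Idea of the proof.  Let `G` be the set of states `x` with `φ(x) = false`.  Restrict the transition
function to `G` and multiply it by `2`: this is a positive operator `T` of finite rank on `L¹`, and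
the masses of the orbit of the initial law are `(3 + cos n) / 16`.  Among the nonnegative elements
with bounded orbits maximise the ratio between the Fourier coefficient at frequency `1` and the
mean of the masses; by finite dimension the maximum is attained.  In the equality case of the
triangle inequality the elements of the orbit of a maximiser are mutually singular (after removal
of negligible parts), because `1 / 2π` is irrational; so they are linearly independent, which
contradicts the finite rank.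
-/

set_option autoImplicit false

open MeasureTheory ProbabilityTheory Filter Topology
open scoped ENNReal

namespace Pool.Agent.Results.MP_d5803c_pr.IrrationalSurvival

section definitions

variable {S : Type*} [MeasurableSpace S]

/-- `f` is in `A_n`: a bounded measurable function on `Sⁿ` -/
def IsA {n : ℕ} (f : (Fin n → S) → ℝ) : Prop := Measurable f ∧ ∃ C : ℝ, ∀ x, |f x| ≤ C

/-- `η = (η_n)` is in `A = ⨁ A_n` -/
def IsAlg (η : ∀ n : ℕ, (Fin n → S) → ℝ) : Prop :=
  (∀ n, IsA (η n)) ∧ ∃ N : ℕ, ∀ n, N ≤ n → ∀ x, η n x = 0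

/-- the product of `A`: concatenation -/
def mul (ξ η : ∀ n : ℕ, (Fin n → S) → ℝ) (k : ℕ) (x : Fin k → S) : ℝ :=
  ∑ m : Fin (k + 1), ξ m (fun i => x ⟨i, by omega⟩) * η (k - m) (fun j => x ⟨m + j, by omega⟩)

/-- the functional `E` on `A` -/
noncomputable def E {Ω : Type*} [MeasurableSpace Ω] (P : Measure Ω) (Y : ℕ → Ω → S)
    (η : ∀ n : ℕ, (Fin n → S) → ℝ) : ℝ := ∑ᶠ n : ℕ, ∫ ω, η n (fun i => Y i ω) ∂P

/-- `L = A / J` is finite-dimensional, where `J = {η ∈ A : E(ξ η) = 0 for all ξ ∈ A}`: there are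
finitely many elements of `A` which span `A` modulo `J` -/
def FiniteDimL {Ω : Type*} [MeasurableSpace Ω] (P : Measure Ω) (Y : ℕ → Ω → S) : Prop :=
  ∃ (d : ℕ) (e : Fin d → ∀ n : ℕ, (Fin n → S) → ℝ), (∀ i, IsAlg (e i)) ∧
    ∀ η : ∀ n : ℕ, (Fin n → S) → ℝ, IsAlg η → ∃ c : Fin d → ℝ,
      ∀ ξ : ∀ n : ℕ, (Fin n → S) → ℝ, IsAlg ξ →
        E P Y (mul ξ (fun n x => η n x - ∑ i, c i * e i n x)) = 0

/-- `X` is a Markov process of finite rank: it has a transition function `κ` which is
`κ(x, B) = ∑ a_j(x) b_j(B)` with measurable `a_j` and linearly independent finite signed measures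
`b_j`, and no nontrivial relation between the `a_j` holds outside a null set. -/
def FiniteRankMarkov {Ω' : Type*} [MeasurableSpace Ω'] (P' : Measure Ω') {S' : Type*}
    [MeasurableSpace S'] (X : ℕ → Ω' → S') : Prop :=
  (∀ n, Measurable (X n)) ∧ ∃ κ : Kernel S' S', IsMarkovKernel κ ∧
    (∀ (n : ℕ) (C : Set (Fin (n + 1) → S')) (B : Set S'), MeasurableSet C → MeasurableSet B →
      P' {ω | (fun i : Fin (n + 1) => X i ω) ∈ C ∧ X (n + 1) ω ∈ B} =
        ∫⁻ ω in {ω | (fun i : Fin (n + 1) => X i ω) ∈ C}, κ (X n ω) B ∂P') ∧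
    ∃ (r : ℕ) (a : Fin r → S' → ℝ) (b : Fin r → SignedMeasure S'),
      (∀ j, Measurable (a j)) ∧ LinearIndependent ℝ b ∧
      (∀ c : Fin r → ℝ, (∃ N, MeasurableSet N ∧ (∀ n, P' (X n ⁻¹' N) = 0) ∧
        ∀ x ∉ N, ∑ j, c j * a j x = 0) → c = 0) ∧
      ∀ x B, MeasurableSet B → (κ x B).toReal = ∑ j, a j x * b j B

end definitions

/-- the survival probabilities -/
noncomputable def s (n : ℕ) : ℝ := (1 / 2) ^ n * ((3 + Real.cos n) / 4)

/-- the law of `τ` -/
noncomputable def p (n : ℕ) : ℝ := s n - s (n + 1)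

theorem s_zero : s 0 = 1 := by unfold s; simp; norm_num

theorem s_pos (n : ℕ) : 0 < s n := by
  have := Real.neg_one_le_cos n
  unfold s
  have : 0 < 3 + Real.cos n := by linarith
  positivity

theorem s_le (n : ℕ) : s n ≤ (1 / 2) ^ n := by
  have := Real.cos_le_one n
  unfold s
  have h : (0 : ℝ) ≤ (1 / 2) ^ n := by positivity
  calc (1 / 2 : ℝ) ^ n * ((3 + Real.cos n) / 4) ≤ (1 / 2) ^ n * 1 :=
        mul_le_mul_of_nonneg_left (by linarith) h
    _ = _ := mul_one _

theorem p_nonneg (n : ℕ) : 0 ≤ p n := by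
  unfold p s
  have h1 := Real.neg_one_le_cos n
  have h2 := Real.cos_le_one ((n + 1 : ℕ) : ℝ)
  have h : (0 : ℝ) ≤ (1 / 2) ^ n := by positivity
  rw [pow_succ]
  have : (1 / 2 : ℝ) ^ n * ((3 + Real.cos n) / 4) - (1 / 2) ^ n * (1 / 2) *
      ((3 + Real.cos ((n + 1 : ℕ) : ℝ)) / 4) = (1 / 2) ^ n *
      ((3 + Real.cos n) / 4 - (3 + Real.cos ((n + 1 : ℕ) : ℝ)) / 8) := by ring
  rw [this]
  exact mul_nonneg h (by linarith)

theorem p_le (n : ℕ) : p n ≤ (1 / 2) ^ n := by
  unfold p
  linarith [s_le n, s_pos (n + 1)]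

theorem sum_p (n : ℕ) : ∑ k ∈ Finset.range n, p k = 1 - s n := by
  rw [← s_zero]
  induction n with
  | zero => simp
  | succ n ih => rw [Finset.sum_range_succ, ih]; unfold p; ring

theorem s_tendsto : Tendsto s atTop (𝓝 0) :=
  squeeze_zero (fun n => (s_pos n).le) s_le
    (tendsto_pow_atTop_nhds_zero_of_lt_one (by norm_num) (by norm_num))

theorem hasSum_p : HasSum p 1 := by
  rw [hasSum_iff_tendsto_nat_of_nonneg p_nonneg]
  simp only [sum_p]
  simpa using s_tendsto.const_sub 1

/-- the law of `τ` as a probability mass function -/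
noncomputable def pmf : PMF ℕ := ⟨fun n => ENNReal.ofReal (p n), by
  rw [ENNReal.summable.hasSum_iff, ← ENNReal.ofReal_tsum_of_nonneg p_nonneg hasSum_p.summable,
    hasSum_p.tsum_eq, ENNReal.ofReal_one]⟩

theorem pmf_apply (n : ℕ) : (pmf n).toReal = p n := by
  change (ENNReal.ofReal (p n)).toReal = p n
  exact ENNReal.toReal_ofReal (p_nonneg n)

/-- the law of `τ` -/
noncomputable def P : Measure ℕ := pmf.toMeasure

instance : IsProbabilityMeasure P := by unfold P; infer_instance

/-- the process: `Y n = true` if and only if `τ ≤ n` -/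
def Y (n : ℕ) (k : ℕ) : Bool := decide (k ≤ n)

theorem Y_meas (n : ℕ) : Measurable (Y n) := measurable_of_countable _

theorem P_integral (F : ℕ → ℝ) {C : ℝ} (hC : ∀ k, |F k| ≤ C) : ∫ k, F k ∂P = ∑' k, p k * F k := by
  unfold P
  rw [PMF.integral_eq_tsum]
  · simp only [pmf_apply, smul_eq_mul]
  · exact Integrable.of_bound (measurable_of_countable F).aestronglyMeasurable C
      (Eventually.of_forall (fun k => by rw [Real.norm_eq_abs]; exact hC k))

theorem P_tail (n : ℕ) : (P {k | n ≤ k}).toReal = s n := by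
  have h1 : P (Finset.range n : Set ℕ) = ENNReal.ofReal (1 - s n) := by
    unfold P
    rw [PMF.toMeasure_apply_finset, ← sum_p, ENNReal.ofReal_sum_of_nonneg (fun k _ => p_nonneg k)]
    rfl
  have h2 : {k | n ≤ k} = (Finset.range n : Set ℕ)ᶜ := by
    ext k; simp
  have hs1 : s n ≤ 1 := (s_le n).trans (pow_le_one₀ (by norm_num) (by norm_num))
  rw [h2, prob_compl_eq_one_sub (Finset.measurableSet _), h1, ← ENNReal.ofReal_one,
    ← ENNReal.ofReal_sub _ (by linarith), ENNReal.toReal_ofReal (by linarith [s_pos n])]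
  ring

/-- the word seen by the first `n` variables if `τ = k` -/
def w (n k : ℕ) : Fin n → Bool := fun i => decide (k ≤ i)

theorem summable_phi {u : ℕ → ℝ} (hu : ∀ j, |u j| ≤ 2 * (1 / 2) ^ j) {n : ℕ}
    {g : (Fin n → Bool) → ℝ} (hg : IsA g) : Summable (fun j => u j * g (w n j)) := by
  obtain ⟨-, C, hC⟩ := hg
  have h1 : Summable (fun j : ℕ => 2 * (1 / 2 : ℝ) ^ j * C) :=
    ((summable_geometric_of_lt_one (by norm_num) (by norm_num)).mul_left 2).mul_right C
  refine Summable.of_norm_bounded h1 (fun j => ?_)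
  rw [Real.norm_eq_abs, abs_mul]
  exact mul_le_mul (hu j) (hC _) (abs_nonneg _) (by positivity)

/-- `g ↦ ∑ u_j g(w_j)` -/
noncomputable def phi (u : ℕ → ℝ) {n : ℕ} (g : (Fin n → Bool) → ℝ) : ℝ := ∑' j, u j * g (w n j)

theorem phi_add {u : ℕ → ℝ} (hu : ∀ j, |u j| ≤ 2 * (1 / 2) ^ j) {n : ℕ}
    {g g' : (Fin n → Bool) → ℝ} (hg : IsA g) (hg' : IsA g') :
    phi u (g + g') = phi u g + phi u g' := by
  unfold phi
  rw [← (summable_phi hu hg).tsum_add (summable_phi hu hg')]
  congr 1
  funext j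
  rw [Pi.add_apply, mul_add]

theorem phi_smul (u : ℕ → ℝ) {n : ℕ} (c : ℝ) (g : (Fin n → Bool) → ℝ) :
    phi u (c • g) = c * phi u g := by
  unfold phi
  rw [← tsum_mul_left]
  congr 1
  funext j
  rw [Pi.smul_apply, smul_eq_mul]
  ring

/-- the weights -/
noncomputable def wt : Fin 4 → ℕ → ℝ := ![fun j => if j = 0 then 1 else 0,
  fun j => 3 / 4 * ((1 / 2) ^ j - (1 / 2) ^ (j + 1)),
  fun j => 1 / 4 * ((1 / 2) ^ j * Real.cos j - (1 / 2) ^ (j + 1) * Real.cos (j + 1)),
  fun j => -(1 / 4) * ((1 / 2) ^ j * Real.sin j - (1 / 2) ^ (j + 1) * Real.sin (j + 1))]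

theorem wt_bound : ∀ (i : Fin 4) (j : ℕ), |wt i j| ≤ 2 * (1 / 2) ^ j := by
  have h : ∀ j : ℕ, (0 : ℝ) < (1 / 2) ^ j := fun j => by positivity
  have key : ∀ (c x y : ℝ) (j : ℕ), |c| ≤ 3 / 4 → |x| ≤ 1 → |y| ≤ 1 →
      |c * ((1 / 2) ^ j * x - (1 / 2) ^ (j + 1) * y)| ≤ 2 * (1 / 2) ^ j := by
    intro c x y j hc hx hy
    rw [pow_succ]
    have e : c * ((1 / 2) ^ j * x - (1 / 2) ^ j * (1 / 2) * y) =
        (c * (x - 1 / 2 * y)) * (1 / 2) ^ j := by ring
    rw [e, abs_mul, abs_of_pos (h j)]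
    apply mul_le_mul_of_nonneg_right _ (h j).le
    rw [abs_mul]
    have h1 : |x - 1 / 2 * y| ≤ 2 := by
      rw [abs_le] at hx hy ⊢
      constructor <;> linarith
    calc |c| * |x - 1 / 2 * y| ≤ 3 / 4 * 2 := mul_le_mul hc h1 (abs_nonneg _) (by norm_num)
      _ ≤ 2 := by norm_num
  intro i j
  fin_cases i
  · change |if j = 0 then (1 : ℝ) else 0| ≤ _
    split_ifs with hj
    · subst hj; norm_num
    · rw [abs_zero]; linarith [h j]
  · have := key (3 / 4) 1 1 j (by norm_num [abs_of_pos]) (by norm_num) (by norm_num)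
    rw [mul_one, mul_one] at this
    exact this
  · exact key (1 / 4) _ _ j (by norm_num [abs_of_pos]) (Real.abs_cos_le_one _)
      (Real.abs_cos_le_one _)
  · exact key (-(1 / 4)) _ _ j (by norm_num [abs_of_pos]) (Real.abs_sin_le_one _)
      (Real.abs_sin_le_one _)

theorem p_add (m j : ℕ) : p (j + m) = (1 / 2) ^ m *
    (wt 1 j + Real.cos m * wt 2 j + Real.sin m * wt 3 j) := by
  change p (j + m) = (1 / 2) ^ m * (3 / 4 * ((1 / 2) ^ j - (1 / 2) ^ (j + 1)) + Real.cos m *
    (1 / 4 * ((1 / 2) ^ j * Real.cos j - (1 / 2) ^ (j + 1) * Real.cos (j + 1))) + Real.sin m *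
    (-(1 / 4) * ((1 / 2) ^ j * Real.sin j - (1 / 2) ^ (j + 1) * Real.sin (j + 1))))
  unfold p s
  have h1 : Real.cos ((j + m : ℕ) : ℝ) = Real.cos j * Real.cos m - Real.sin j * Real.sin m := by
    rw [Nat.cast_add, Real.cos_add]
  have h2 : Real.cos ((j + m + 1 : ℕ) : ℝ) =
      Real.cos (j + 1) * Real.cos m - Real.sin (j + 1) * Real.sin m := by
    rw [← Real.cos_add]
    congr 1
    push_cast
    ring
  rw [h1, h2]
  ring

theorem key (m n : ℕ) (f : (Fin m → Bool) → ℝ) (g : (Fin n → Bool) → ℝ) (hf : IsA f)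
    (hg : IsA g) :
    ∫ k, f (fun i => Y i k) * g (fun j => Y (m + j) k) ∂P =
      (∑ k ∈ Finset.range m, p k * f (w m k)) * phi (wt 0) g +
      (f (w m m) * (1 / 2) ^ m) * (phi (wt 1) g +
        Real.cos m * phi (wt 2) g + Real.sin m * phi (wt 3) g) := by
  have e1 : ∫ k, f (fun i => Y i k) * g (fun j => Y (m + j) k) ∂P =
      ∫ k, f (w m k) * g (w n (k - m)) ∂P := by
    congr 1
    funext k
    have hw : (fun j : Fin n => Y (m + j) k) = w n (k - m) := by
      funext j
      change decide (k ≤ m + (j : ℕ)) = decide (k - m ≤ (j : ℕ))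
      rw [decide_eq_decide]
      omega
    rw [hw]
    rfl
  have hg' := hg
  obtain ⟨-, C, hC⟩ := hf
  obtain ⟨-, D, hD⟩ := hg
  have hb : ∀ k, |f (w m k) * g (w n (k - m))| ≤ C * D := fun k => by
    rw [abs_mul]
    exact mul_le_mul (hC _) (hD _) (abs_nonneg _) ((abs_nonneg _).trans (hC (w m 0)))
  rw [e1, P_integral _ hb]
  have hsum : Summable (fun k => p k * (f (w m k) * g (w n (k - m)))) := by
    refine Summable.of_norm_bounded (hasSum_p.summable.mul_right (C * D)) (fun k => ?_)
    rw [Real.norm_eq_abs, abs_mul, abs_of_nonneg (p_nonneg k)]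
    exact mul_le_mul_of_nonneg_left (hb k) (p_nonneg k)
  rw [← hsum.sum_add_tsum_nat_add m]
  have h0 : phi (wt 0) g = g (w n 0) := by
    change ∑' j, (if j = 0 then (1 : ℝ) else 0) * g (w n j) = _
    rw [tsum_eq_single 0]
    · simp
    · intro j hj; simp [hj]
  congr 1
  · rw [h0, Finset.sum_mul]
    refine Finset.sum_congr rfl (fun k hk => ?_)
    have : k - m = 0 := by have := Finset.mem_range.1 hk; omega
    rw [this]
    ring
  · have s1 := summable_phi (wt_bound 1) hg'
    have s2 := (summable_phi (wt_bound 2) hg').mul_left (Real.cos m)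
    have s3 := (summable_phi (wt_bound 3) hg').mul_left (Real.sin m)
    unfold phi
    rw [← tsum_mul_left, ← tsum_mul_left, ← s1.tsum_add s2, ← (s1.add s2).tsum_add s3,
      ← tsum_mul_left]
    congr 1
    funext j
    have hw : w m (j + m) = w m m := by
      funext i
      change decide (j + m ≤ (i : ℕ)) = decide (m ≤ (i : ℕ))
      have := i.2
      rw [decide_eq_false (by omega), decide_eq_false (by omega)]
    rw [hw, Nat.add_sub_cancel, p_add]
    ring

/-- `A` as a submodule -/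
def AA : Submodule ℝ (∀ n : ℕ, (Fin n → Bool) → ℝ) where
  carrier := {η | IsAlg η}
  zero_mem' := ⟨fun n => ⟨measurable_const, 0, fun x => by simp⟩, 0, fun n _ x => rfl⟩
  add_mem' := by
    rintro η η' ⟨h1, N, hN⟩ ⟨h2, N', hN'⟩
    refine ⟨fun n => ?_, max N N', fun n hn x => ?_⟩
    · obtain ⟨hf, C, hC⟩ := h1 n
      obtain ⟨hg, D, hD⟩ := h2 n
      exact ⟨hf.add hg, C + D, fun x => (abs_add_le _ _).trans (add_le_add (hC x) (hD x))⟩
    · have e1 := hN n ((le_max_left _ _).trans hn) x
      have e2 := hN' n ((le_max_right _ _).trans hn) x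
      change η n x + η' n x = 0
      rw [e1, e2, add_zero]
  smul_mem' := by
    rintro c η ⟨h1, N, hN⟩
    refine ⟨fun n => ?_, N, fun n hn x => ?_⟩
    · obtain ⟨hf, C, hC⟩ := h1 n
      refine ⟨hf.const_smul c, |c| * C, fun x => ?_⟩
      change |c * η n x| ≤ _
      rw [abs_mul]
      exact mul_le_mul_of_nonneg_left (hC x) (abs_nonneg _)
    · change c * η n x = 0
      rw [hN n hn x, mul_zero]

theorem phi_zero (u : ℕ → ℝ) {n : ℕ} {g : (Fin n → Bool) → ℝ} (hg : ∀ x, g x = 0) :
    phi u g = 0 := by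
  unfold phi
  simp [hg]

theorem fin_supp (u : ℕ → ℝ) {η : ∀ n : ℕ, (Fin n → Bool) → ℝ} (hη : IsAlg η) :
    (Function.support (fun n => phi u (η n))).Finite := by
  obtain ⟨-, N, hN⟩ := hη
  refine (Set.finite_lt_nat N).subset (fun n hn => ?_)
  by_contra hc
  change ¬ n < N at hc
  exact hn (phi_zero u (hN n (not_lt.1 hc)))

/-- the map with kernel in `J` -/
noncomputable def Phi : AA →ₗ[ℝ] (Fin 4 → ℝ) where
  toFun η i := ∑ᶠ n, phi (wt i) (η.1 n)
  map_add' η η' := by
    funext i
    rw [Pi.add_apply, ← finsum_add_distrib (fin_supp _ η.2) (fin_supp _ η'.2)]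
    congr 1
    funext n
    rw [← phi_add (wt_bound i) (η.2.1 n) (η'.2.1 n)]
    rfl
  map_smul' c η := by
    funext i
    rw [RingHom.id_apply, Pi.smul_apply, smul_eq_mul, mul_finsum]
    congr 1
    funext n
    rw [← phi_smul]
    rfl

theorem E_mul {ξ η : ∀ n : ℕ, (Fin n → Bool) → ℝ} (hξ : IsAlg ξ) (hη : IsAlg η)
    (h0 : ∀ i, ∑ᶠ n, phi (wt i) (η n) = 0) : E P Y (mul ξ η) = 0 := by
  classical
  obtain ⟨N, hN⟩ := hξ.2
  obtain ⟨N', hN'⟩ := hη.2
  -- the terms
  set F : ℕ → ℕ → ℝ := fun m n => ∫ k, ξ m (fun i => Y i k) * η n (fun j => Y (m + j) k) ∂P with hF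
  have hF1 : ∀ m n, F m n = (∑ k ∈ Finset.range m, p k * ξ m (w m k)) * phi (wt 0) (η n) +
      (ξ m (w m m) * (1 / 2) ^ m) * (phi (wt 1) (η n) +
        Real.cos m * phi (wt 2) (η n) + Real.sin m * phi (wt 3) (η n)) :=
    fun m n => key m n (ξ m) (η n) (hξ.1 m) (hη.1 n)
  have hF2 : ∀ m n, N ≤ m → F m n = 0 := by
    intro m n hm
    simp only [hF, hN m hm, zero_mul, integral_zero]
  have hF3 : ∀ m n, N' ≤ n → F m n = 0 := by
    intro m n hn
    simp only [hF, hN' n hn, mul_zero, integral_zero]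
  have hk : ∀ k, ∫ ω, mul ξ η k (fun i => Y i ω) ∂P = ∑ m ∈ Finset.range (k + 1), F m (k - m) := by
    intro k
    unfold mul
    rw [integral_finsetSum]
    · rw [← Fin.sum_univ_eq_sum_range (fun m => F m (k - m)) (k + 1)]
    · intro m _
      obtain ⟨-, C, hC⟩ := hξ.1 m
      obtain ⟨-, D, hD⟩ := hη.1 (k - m)
      refine Integrable.of_bound (measurable_of_countable _).aestronglyMeasurable (C * D)
        (Eventually.of_forall (fun ω => ?_))
      rw [Real.norm_eq_abs, abs_mul]
      exact mul_le_mul (hC _) (hD _) (abs_nonneg _) ((abs_nonneg _).trans (hC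
        (fun i => Y i 0)))
  have hE : E P Y (mul ξ η) = ∑ k ∈ Finset.range (N + N'), ∑ m ∈ Finset.range (k + 1),
      F m (k - m) := by
    unfold E
    simp only [hk]
    apply finsum_eq_sum_of_support_subset
    intro k hk'
    rw [Finset.coe_range, Set.mem_Iio]
    by_contra hc
    apply hk'
    apply Finset.sum_eq_zero
    intro m hm
    rw [Finset.mem_range] at hm
    rcases Nat.lt_or_ge m N with h1 | h1
    · exact hF3 _ _ (by omega)
    · exact hF2 _ _ h1
  rw [hE]
  have h4 : ∀ i, ∑ n ∈ Finset.range (N + N'), phi (wt i) (η n) = 0 := by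
    intro i
    rw [← h0 i]
    symm
    apply finsum_eq_sum_of_support_subset
    intro n hn
    rw [Finset.coe_range, Set.mem_Iio]
    by_contra hc
    exact hn (phi_zero _ (hN' n (by omega)))
  -- reorder
  have h5 : ∀ M : ℕ, N + N' ≤ M → ∑ k ∈ Finset.range M, ∑ m ∈ Finset.range (k + 1), F m (k - m) =
      ∑ m ∈ Finset.range M, ∑ n ∈ Finset.range M, F m n := by
    intro M hM
    have e1 : ∀ k, ∑ m ∈ Finset.range (k + 1), F m (k - m) =
        ∑ x ∈ Finset.HasAntidiagonal.antidiagonal k, F x.1 x.2 := fun k =>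
      (Finset.Nat.sum_antidiagonal_eq_sum_range_succ (fun i j => F i j) k).symm
    simp only [e1]
    rw [← Finset.sum_product' (Finset.range M) (Finset.range M) F]
    rw [← Finset.sum_fiberwise_of_maps_to (s := (Finset.range M ×ˢ Finset.range M))
      (t := Finset.range (2 * M)) (g := fun x => x.1 + x.2)
      (fun x hx => by
        rw [Finset.mem_product, Finset.mem_range, Finset.mem_range] at hx
        rw [Finset.mem_range]; omega)]
    rw [two_mul, Finset.sum_range_add]
    have e2 : ∑ k ∈ Finset.range M, ∑ x ∈ (Finset.range M ×ˢ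
        Finset.range M) with x.1 + x.2 = M + k, F x.1 x.2 = 0 := by
      apply Finset.sum_eq_zero
      intro k _
      apply Finset.sum_eq_zero
      intro x hx
      rw [Finset.mem_filter] at hx
      rcases Nat.lt_or_ge x.1 N with h1 | h1
      · exact hF3 _ _ (by omega)
      · exact hF2 _ _ h1
    rw [e2, add_zero]
    refine Finset.sum_congr rfl (fun k hk' => ?_)
    rw [Finset.mem_range] at hk'
    refine Finset.sum_congr ?_ (fun _ _ => rfl)
    ext x
    rw [Finset.HasAntidiagonal.mem_antidiagonal, Finset.mem_filter, Finset.mem_product, Finset.mem_range,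
      Finset.mem_range]
    constructor
    · intro h; exact ⟨⟨by omega, by omega⟩, h⟩
    · intro h; exact h.2
  rw [h5 _ le_rfl]
  apply Finset.sum_eq_zero
  intro m _
  simp only [hF1]
  simp only [Finset.sum_add_distrib, ← Finset.mul_sum, h4]
  ring

theorem finite_L : FiniteDimL P Y := by
  obtain ⟨d, v, hv⟩ := Submodule.fg_iff_exists_fin_generating_family.1
    (IsNoetherian.noetherian (LinearMap.range Phi))
  have hmem : ∀ i, v i ∈ LinearMap.range Phi := fun i => by
    rw [← hv]; exact Submodule.subset_span ⟨i, rfl⟩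
  choose e he using hmem
  refine ⟨d, fun i => (e i).1, fun i => (e i).2, fun η hη => ?_⟩
  have h1 : Phi ⟨η, hη⟩ ∈ Submodule.span ℝ (Set.range v) := by
    rw [hv]; exact ⟨_, rfl⟩
  obtain ⟨c, hc⟩ := (Submodule.mem_span_range_iff_exists_fun ℝ).1 h1
  refine ⟨c, fun ξ hξ => ?_⟩
  set ζ : AA := ⟨η, hη⟩ - ∑ i, c i • e i with hζ
  have hζ0 : Phi ζ = 0 := by
    rw [hζ, map_sub, map_sum, ← hc]
    simp only [map_smul, he, sub_self]
  have hζ1 : (fun n x => η n x - ∑ i, c i * (e i).1 n x) = ζ.1 := by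
    funext n x
    rw [hζ]
    simp
  rw [hζ1]
  exact E_mul hξ ζ.2 (fun i => congrFun hζ0 i)

/-- **Q1 is false.**  There is a random sequence `Y` with two values (on `Ω = ℕ`) whose space
`L = A / J` is finite-dimensional, such that for no Markov process `X` of finite rank, on any
measurable space, and no measurable `φ` the finite-dimensional distributions of `φ(X_n)` are those
of `Y`. -/
theorem result.{u, v} : ∃ (P : Measure ℕ) (_ : IsProbabilityMeasure P) (Y : ℕ → ℕ → Bool)
    (_ : ∀ n, Measurable (Y n)), FiniteDimL P Y ∧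
      ∀ (Ω' : Type u) (_ : MeasurableSpace Ω') (P' : Measure Ω') (_ : IsProbabilityMeasure P')
        (S' : Type v) (_ : MeasurableSpace S') (X : ℕ → Ω' → S') (φ : S' → Bool),
        FiniteRankMarkov P' X → Measurable φ →
          ¬ ∀ n : ℕ, P'.map (fun ω (i : Fin n) => φ (X i ω)) = P.map (fun ω (i : Fin n) => Y i ω) := by
  refine ⟨P, inferInstance, Y, Y_meas, finite_L, ?_⟩
  intro Ω' _ P' _ S' _ X φ hX hφ hfdd
  obtain ⟨hXm, κ, hκM, hM, r, a, b, ha, hb, -, hκ⟩ := hX
  have hG : MeasurableSet (φ ⁻¹' {false}) := hφ (measurableSet_singleton _)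
  refine Pool.Agent.X127.FR.no_rank P' X (φ ⁻¹' {false}) κ a b hXm hG hM ha hb hκ (fun n => ?_)
  set B : Set (Fin (n + 1) → Bool) := {fun _ => false} with hB
  have hBm : MeasurableSet B := measurableSet_singleton _
  have m1 : Measurable (fun ω (i : Fin (n + 1)) => φ (X i ω)) :=
    measurable_pi_lambda _ (fun i => hφ.comp (hXm i))
  have m2 : Measurable (fun ω (i : Fin (n + 1)) => Y i ω) :=
    measurable_pi_lambda _ (fun i => Y_meas i)
  have h1 := congrArg (fun μ : Measure (Fin (n + 1) → Bool) => μ B) (hfdd (n + 1))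
  rw [Measure.map_apply m1 hBm, Measure.map_apply m2 hBm] at h1
  have e1 : (fun ω (i : Fin (n + 1)) => φ (X i ω)) ⁻¹' B =
      Pool.Agent.X127.FR.ev X (φ ⁻¹' {false}) n := by
    ext ω
    constructor
    · intro h i
      exact congrFun h i
    · intro h
      funext i
      exact h i
  have e2 : (fun ω (i : Fin (n + 1)) => Y i ω) ⁻¹' B = {k | n + 1 ≤ k} := by
    ext k
    constructor
    · intro h
      have h2 := congrFun h (Fin.last n)
      have h3 : decide (k ≤ ((Fin.last n : Fin (n + 1)) : ℕ)) = false := h2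
      rw [decide_eq_false_iff_not, Fin.val_last] at h3
      change n + 1 ≤ k
      omega
    · intro h
      change n + 1 ≤ k at h
      funext i
      have := i.2
      exact decide_eq_false (by omega)
  rw [← e1, h1, e2, P_tail]
  unfold s
  push_cast
  ring

end Pool.Agent.Results.MP_d5803c_pr.IrrationalSurvival
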